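import Mathlib

set_option autoImplicit false

open scoped Pointwise

namespace Pool.Agent.Results.MP_1ee7a3_al.DihedralTimesCyclic

/-- `H` and `K` permute: `HK = KH`. -/
def Permutes {G : Type*} [Group G] (H K : Subgroup G) : Prop :=
  (H : Set G) * (K : Set G) = (K : Set G) * (H : Set G)

/-- `H` is propermutable in `G`. -/
def Propermutable {G : Type*} [Group G] (H : Subgroup G) : Prop :=
  ∃ T : Subgroup G, (Subgroup.normalizer (H : Set G) : Set G) * (T : Set G) = Set.univ ∧
    ∀ K : Subgroup G, K ≤ T → Permutes H K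

/-- the ambient group of the example -/
abbrev G32 : Type := DihedralGroup 4 × Multiplicative (ZMod 4)

/-- a reflection -/
def s : G32 := (DihedralGroup.sr 0, 1)

/-- the twisted rotation -/
def b : G32 := (DihedralGroup.r 1, Multiplicative.ofAdd 1)

theorem s_sq : s * s = 1 := by decide

theorem mem_A {x : G32} : x ∈ Subgroup.zpowers s ↔ x = 1 ∨ x = s := by
  constructor
  · intro h
    obtain ⟨k, rfl⟩ := Subgroup.mem_zpowers_iff.1 h
    rcases Int.even_or_odd' k with ⟨c, rfl | rfl⟩
    · left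
      rw [zpow_mul, zpow_two, s_sq, one_zpow]
    · right
      rw [zpow_add, zpow_mul, zpow_two, s_sq, one_zpow, one_mul, zpow_one]
  · rintro (rfl | rfl)
    · exact Subgroup.one_mem _
    · exact Subgroup.mem_zpowers _

theorem commuting : ∀ m : Multiplicative (ZMod 4),
    Commute ((1 : DihedralGroup 4), m) s ∧ Commute ((DihedralGroup.sr 0 : DihedralGroup 4), m) s := by
  unfold Commute SemiconjBy
  decide

theorem mem_normalizer_of_commute {x : G32} (h : Commute x s) :
    x ∈ Subgroup.normalizer ((Subgroup.zpowers s : Subgroup G32) : Set G32) := by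
  rw [Subgroup.mem_normalizer_iff]
  intro y
  have h1 : x * s * x⁻¹ = s := by rw [h.eq, mul_inv_cancel_right]
  rw [mem_A, mem_A]
  constructor
  · rintro (rfl | rfl)
    · left; simp
    · right; exact h1
  · rintro (h2 | h2)
    · left
      have : y = x⁻¹ * (x * y * x⁻¹) * x := by group
      rw [this, h2]; group
    · right
      have : y = x⁻¹ * (x * y * x⁻¹) * x := by group
      rw [this, h2, mul_assoc, ← h.eq, inv_mul_cancel_left]

/-- the rotations -/
def T : Subgroup G32 := Subgroup.zpowers (DihedralGroup.r 1, 1)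

theorem mem_T {x : G32} (h : x ∈ T) : ∃ i, x = (DihedralGroup.r i, 1) := by
  obtain ⟨k, rfl⟩ := Subgroup.mem_zpowers_iff.1 h
  exact ⟨(k : ZMod 4), by rw [Prod.pow_mk, DihedralGroup.r_one_zpow, one_zpow]⟩

theorem r_mem_T (i : ZMod 4) : ((DihedralGroup.r i, 1) : G32) ∈ T := by
  refine Subgroup.mem_zpowers_iff.2 ⟨(i.val : ℤ), ?_⟩
  rw [Prod.pow_mk, DihedralGroup.r_one_zpow, one_zpow]
  simp

theorem prop_G : Propermutable (Subgroup.zpowers s) := by
  refine ⟨T, ?_, ?_⟩
  · rw [Set.eq_univ_iff_forall]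
    rintro ⟨x, m⟩
    rcases x with i | i
    · refine Set.mem_mul.2 ⟨(1, m), mem_normalizer_of_commute (commuting m).1, (DihedralGroup.r i, 1),
        r_mem_T i, ?_⟩
      simp
    · refine Set.mem_mul.2 ⟨(DihedralGroup.sr 0, m), mem_normalizer_of_commute (commuting m).2,
        (DihedralGroup.r i, 1), r_mem_T i, ?_⟩
      simp
  · intro K hK
    have hswap : ∀ k ∈ K, s * k = k⁻¹ * s := by
      intro k hk
      obtain ⟨i, rfl⟩ := mem_T (hK hk)
      simp [s]
    have hswap' : ∀ k ∈ K, k * s = s * k⁻¹ := by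
      intro k hk
      rw [hswap _ (K.inv_mem hk), inv_inv]
    ext x
    constructor
    · intro hx
      obtain ⟨a, ha, k, hk, rfl⟩ := Set.mem_mul.1 hx
      rcases mem_A.1 ha with rfl | rfl
      · exact Set.mem_mul.2 ⟨k, hk, 1, Subgroup.one_mem _, by simp⟩
      · exact Set.mem_mul.2 ⟨k⁻¹, K.inv_mem hk, s, ha, (hswap k hk).symm⟩
    · intro hx
      obtain ⟨k, hk, a, ha, rfl⟩ := Set.mem_mul.1 hx
      rcases mem_A.1 ha with rfl | rfl
      · exact Set.mem_mul.2 ⟨1, Subgroup.one_mem _, k, hk, by simp⟩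
      · exact Set.mem_mul.2 ⟨s, ha, k⁻¹, K.inv_mem hk, (hswap' k hk).symm⟩

/-- the intermediate subgroup -/
def B : Subgroup G32 := Subgroup.closure {s, b}

theorem s_mem_B : s ∈ B := Subgroup.subset_closure (by simp)

theorem b_mem_B : b ∈ B := Subgroup.subset_closure (by simp)

/-- the parity of the rotation part -/
def rot : DihedralGroup 4 → ℕ
  | DihedralGroup.r i => i.val % 2
  | DihedralGroup.sr i => i.val % 2

/-- the two parities agree -/
abbrev par (x : G32) : Prop := rot x.1 = (Multiplicative.toAdd x.2).val % 2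

theorem par_mul : ∀ x y : G32, par x → par y → par (x * y) := by
  decide +kernel

theorem par_inv : ∀ x : G32, par x → par x⁻¹ := by
  decide +kernel

theorem par_B {x : G32} (hx : x ∈ B) : par x := by
  unfold B at hx
  induction hx using Subgroup.closure_induction with
  | mem y hy =>
    rcases hy with rfl | hy
    · decide
    · rw [Set.mem_singleton_iff.1 hy]
      decide
  | one => decide
  | mul y z _ _ h1 h2 => exact par_mul y z h1 h2
  | inv y _ h1 => exact par_inv y h1

theorem key : ∀ x : G32, par x → x * s * x⁻¹ = s → ∀ j : Fin 4,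
    s * (x⁻¹ * b) ≠ (x⁻¹ * b) ^ (j : ℕ) ∧ s * (x⁻¹ * b) ≠ (x⁻¹ * b) ^ (j : ℕ) * s := by
  decide +kernel

theorem pow_four : ∀ x : G32, x ^ 4 = 1 := by
  decide +kernel

theorem not_prop_B : ¬ Propermutable ((Subgroup.zpowers s).subgroupOf B) := by
  rintro ⟨C, hC, hperm⟩
  have h1 : (⟨b, b_mem_B⟩ : B) ∈ ((Subgroup.normalizer (((Subgroup.zpowers s).subgroupOf B : Subgroup B) : Set B) : Set B) *
      (C : Set B)) := by rw [hC]; trivial
  obtain ⟨x, hx, c, hc, hxc⟩ := Set.mem_mul.1 h1
  have hxs : (x : G32) * s * (x : G32)⁻¹ = s := by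
    have h2 := (Subgroup.mem_normalizer_iff.1 hx ⟨s, s_mem_B⟩).1 (by
      rw [Subgroup.mem_subgroupOf]
      exact Subgroup.mem_zpowers _)
    rw [Subgroup.mem_subgroupOf, mem_A] at h2
    rcases h2 with h2 | h2
    · exfalso
      have h3 : (x : G32) * s * (x : G32)⁻¹ = 1 := h2
      have h4 : s = 1 := by
        have : s = (x : G32)⁻¹ * ((x : G32) * s * (x : G32)⁻¹) * x := by group
        rw [this, h3]; group
      exact absurd h4 (by decide)
    · exact h2
  have hcb : (c : G32) = (x : G32)⁻¹ * b := by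
    have h2 : (x : G32) * c = b := congrArg Subtype.val hxc
    rw [← h2]; group
  have hK : Subgroup.zpowers c ≤ C := Subgroup.zpowers_le.2 hc
  have h2 := hperm _ hK
  have h3 : (⟨s, s_mem_B⟩ : B) * c ∈ (((Subgroup.zpowers s).subgroupOf B : Set B) *
      (Subgroup.zpowers c : Set B)) :=
    Set.mul_mem_mul (Subgroup.mem_subgroupOf.2 (Subgroup.mem_zpowers _)) (Subgroup.mem_zpowers _)
  unfold Permutes at h2
  rw [h2] at h3
  obtain ⟨k, hk, a, ha, hka⟩ := Set.mem_mul.1 h3
  obtain ⟨j, rfl⟩ := Subgroup.mem_zpowers_iff.1 hk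
  have h4 : (c : G32) ^ j * (a : G32) = s * (c : G32) := congrArg Subtype.val hka
  have h5 : (a : G32) = 1 ∨ (a : G32) = s := mem_A.1 (Subgroup.mem_subgroupOf.1 ha)
  have h6 : (c : G32) ^ j = (c : G32) ^ ((j % 4).toNat) := by
    have h7 : ((j % 4).toNat : ℤ) = j % 4 := Int.toNat_of_nonneg (Int.emod_nonneg _ (by norm_num))
    rw [← zpow_natCast, h7]
    conv_lhs => rw [← Int.emod_add_mul_ediv j 4]
    rw [zpow_add, zpow_mul]
    have : (c : G32) ^ (4 : ℤ) = 1 := by exact_mod_cast pow_four c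
    rw [this, one_zpow, mul_one]
  have hlt : (j % 4).toNat < 4 := by
    have := Int.emod_lt_of_pos j (show (0 : ℤ) < 4 by norm_num)
    omega
  have h8 := key x (par_B x.2) hxs ⟨_, hlt⟩
  rw [h6, hcb] at h4
  rcases h5 with h5 | h5
  · rw [h5, mul_one] at h4
    exact h8.1 h4.symm
  · rw [h5] at h4
    exact h8.2 h4.symm

/-- There are a finite group `G` and subgroups `A ≤ B ≤ G` such that `A` is propermutable in `G`
but not in `B`. -/
theorem result : ∃ (G : Type) (_ : Group G) (_ : Finite G) (A B : Subgroup G), A ≤ B ∧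
    Propermutable A ∧ ¬ Propermutable (A.subgroupOf B) :=
  ⟨G32, inferInstance, inferInstance, Subgroup.zpowers s, B,
    Subgroup.zpowers_le.2 s_mem_B, prop_G, not_prop_B⟩

end Pool.Agent.Results.MP_1ee7a3_al.DihedralTimesCyclic
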